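import Pool.Agent.N864.GS.Quot
import Pool.Agent.N864.GR.Main3

/-!
# The module of the quotient, fixed points on the generic fibre
-/

set_option autoImplicit false
set_option linter.unusedSectionVars false
set_option linter.unusedVariables false

namespace Pool.Agent.N864.GS

open Pool.Agent.Y223.G Pool.Agent.TH188.QS Pool.Agent.W418.LU2 Pool.Agent.TH188.ARC
  Pool.Agent.Y223.INV Pool.Agent.N864.GQ Pool.Agent.N864.GR
open Pool.Agent.Y25.G (MN_mul MN_one MN_zero MN_z MN_succ MN_pow_z FS_pow FS_mul FS_one)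
open Pool.Agent.Y232.G6 (Ph Ph_hm mem_res)

section

variable {O K G : Type} [CommRing O] [Field K] [Algebra O K] [Group G]
  {ρ : G →* (K ≃ₐ[O] K)} {A B : Subalgebra O K}

lemma Lq_refl (W : ValuationSubring K) (𝔞 : Ideal A) : Lq W 𝔞 𝔞 := by
  refine ⟨1, one_ne_zero, ?_, fun x hx => by rwa [one_mul], fun x hx => by rwa [one_mul]⟩
  change (1 : K)⁻¹ ∈ W
  rw [inv_one]
  exact W.one_mem

variable {u : K} (hu : u ∈ A) (hA : ∀ g, ∀ a ∈ A, ρ g a ∈ A) (hB : ∀ g, ∀ b ∈ B, ρ g b ∈ B)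
  (hinv : ∀ g, ρ g u = u)

section fin

variable [Fintype G]

lemma AJ_ne (hfaith : ∀ g, (∀ a ∈ A, ρ g a = a) → g = 1) (e : G → ℕ) : AJ hA e ≠ ⊥ := by
  unfold AJ Pool.Agent.N864.GR.PI
  rw [← Ideal.zero_eq_bot, Finset.prod_ne_zero_iff]
  intro g hg
  exact pow_ne_zero _ (fixI_ne_bot hA hfaith (mem_NT.1 hg))

include hu hinv in
lemma Gl_AJ (hAB : ∀ b ∈ B, ∃ n : ℕ, u ^ n * b ∈ A) (e : G → ℕ) :
    Gl u (AJ hB e) (AJ hA e) := by
  unfold AJ Pool.Agent.N864.GR.PI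
  exact Gl_prod hu hAB _ _ _ fun g _ => Gl_pow hu hAB (Gl_fixI hu hA hB hinv hAB g) _

include hu hinv in
/-- The Rees algebras glue. -/
theorem glue_RI4 (hAB : ∀ b ∈ B, ∃ n : ℕ, u ^ n * b ∈ A) (e : G → ℕ) :
    ∀ f ∈ RI (AJ hB e), ∃ n : ℕ, hm 0 u ^ n * f ∈ RI (AJ hA e) := by
  classical
  have hU : hm 0 u ∈ RI (AJ hA e) := b_RI (𝔞 := AJ hA e) ⟨u, hu⟩
  have hpow : ∀ (n : ℕ) (d : ℤ) (x : K), hm 0 u ^ n * hm d x = hm d (u ^ n * x) := by
    intro n d x
    induction n with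
    | zero => rw [pow_zero, pow_zero, one_mul, one_mul]
    | succ n ih =>
      rw [pow_succ', mul_assoc, ih, hm_mul, zero_add]
      congr 1
      ring
  refine RI_induction ?_ ?_ ?_ ?_ ?_
  · intro b
    obtain ⟨n, hn⟩ := hAB b b.2
    refine ⟨n, ?_⟩
    rw [hpow]
    exact b_RI (𝔞 := AJ hA e) ⟨_, hn⟩
  · exact ⟨0, by rw [pow_zero, one_mul]; exact s_RI⟩
  · intro w hw
    obtain ⟨n, a, ha, hn⟩ := Gl_AJ hu hA hB hinv hAB e w hw
    refine ⟨n, ?_⟩
    rw [hpow, ← hn]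
    exact hm_one_RI ha
  · rintro f _ g _ ⟨n, hn⟩ ⟨n', hn'⟩
    refine ⟨n + n', ?_⟩
    have e : hm 0 u ^ (n + n') * (f + g) =
        hm 0 u ^ n' * (hm 0 u ^ n * f) + hm 0 u ^ n * (hm 0 u ^ n' * g) := by ring
    rw [e]
    exact Subalgebra.add_mem _ (Subalgebra.mul_mem _ (Subalgebra.pow_mem _ hU _) hn)
      (Subalgebra.mul_mem _ (Subalgebra.pow_mem _ hU _) hn')
  · rintro f _ g _ ⟨n, hn⟩ ⟨n', hn'⟩
    refine ⟨n + n', ?_⟩
    have e : hm 0 u ^ (n + n') * (f * g) = (hm 0 u ^ n * f) * (hm 0 u ^ n' * g) := by ring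
    rw [e]
    exact Subalgebra.mul_mem _ hn hn'

end fin

end

/-- The module of the quotient. -/
theorem gq_module4 {O F K G : Type} [CommRing O] [IsDomain O] [IsNoetherianRing O] [Field F]
    [Field K] [Algebra O F] [Algebra O K] [Algebra F K] [IsScalarTower O F K] [Group G] [Finite G]
    (hinj : Function.Injective (algebraMap O K))
    (T₀ : ℕ → Prop) (ρ : G →* (K ≃ₐ[O] K))
    (hfix : ∀ x, (∀ g, ρ g x = x) ↔ ∃ f : F, algebraMap F K f = x)
    (hρ : Function.Injective ρ) {m : ℕ} (z : Fin (m + 1) → K) (hz : ∀ j, z j ≠ 0)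
    (hfr : ∀ S : Subfield K, (∀ o : O, algebraMap O K o ∈ S) → (∀ i j, z i / z j ∈ S) → S = ⊤)
    (hlin : ∀ g j, ρ g (z j) ∈ Submodule.span O (Set.range z))
    (hpt : ∀ (W : ValuationSubring K) j, CC O z j ≤ W.toSubring →
      PT2 T₀ ρ W (lo W.toSubring (CC O z j))) :
    Pool.Agent.H918R2.Quad.HasModule O F := by
  classical
  let _ : Fintype G := Fintype.ofFinite G
  let ι : F →ₐ[O] K := IsScalarTower.toAlgHom O F K
  have hinjF : Function.Injective (algebraMap O F) := by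
    intro a b hab
    apply hinj
    rw [IsScalarTower.algebraMap_apply O F K, IsScalarTower.algebraMap_apply O F K, hab]
  obtain ⟨d, S, hd1, hSfin, hS, hval⟩ := exists_forms ρ z ι hz hlin 1 le_rfl
  rw [mul_one] at hS hval
  have hfinS : Finite S := hSfin
  have hst : ∀ a : S, ∀ g, ∀ x ∈ AF O z d a, ρ g x ∈ AF O z d a := fun a g =>
    AF_act hlin (hS a a.2).2.2 g
  have hex : ∀ a : S, ∃ y : F, ι y = a := fun a => (hfix _).1 fun g => (hS a a.2).2.2 g
  choose h hh using hex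
  have hh0 : ∀ a, h a ≠ 0 := by
    intro a h0
    have h1 := hh a
    rw [h0, map_zero] at h1
    exact (hS a a.2).2.1 h1.symm
  obtain ⟨R, hR⟩ : ∃ R : S → Subalgebra O (LP F), R = fun a => res ι (RI (AJ (hst a) (ex T₀))) :=
    ⟨_, rfl⟩
  have hmemR : ∀ (a : S) (y : F), hm 0 y ∈ R a ↔ ι y ∈ AF O z d a := by
    intro a y
    rw [hR, mem_res, Ph_hm]
    constructor
    · intro h
      obtain ⟨b, -, hb⟩ := of_hm_RI h
      rw [← hb]
      exact b.2
    · intro h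
      exact b_RI (𝔞 := AJ (hst a) (ex T₀)) ⟨_, h⟩
  have hfaith : ∀ (a : S) g, (∀ x ∈ AF O z d a, ρ g x = x) → g = 1 := by
    intro a g hg
    apply hρ
    rw [map_one]
    ext y
    obtain ⟨b, hb, b', hb', -, rfl⟩ := AF_frac (O := O) hz (hS a a.2).2.1 hd1 hfr y
    rw [map_div₀, hg b hb, hg b' hb']
    rfl
  have hCh : ∀ a, Ch (R a) := by
    intro a
    rw [hR]
    have hft := AF_ft (O := O) z d a
    refine ch_resG (hst a) ι (fun x => hfix x) (hfaith a) (AJ_ne (hst a) (hfaith a) _)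
      (fun x hx g => AJ_act (hst a) (ex T₀) (fun g h => ex_conj T₀ g h) hx g) ?_
    intro W hAW
    obtain ⟨j, hCW, hlo⟩ := lo_AF hz (hS a a.2).2.1 (hS a a.2).1 hd1 hAW
    refine ⟨T₀, Lq_refl W _, ?_⟩
    rw [hlo]
    exact hpt W j hCW
  have hquot : ∀ a b : S, ι (h b / h a) = (b : K) / a := by
    intro a b
    rw [map_div₀, hh, hh]
  have hιinj : ∀ x y : F, ι x = ι y → x = y := fun x y hxy => ι.toRingHom.injective hxy
  obtain ⟨r, T, hT, C, H, hAt⟩ := Pool.Agent.Y363.G.t_ATLAS O F hinjF False ⊥ ⊤ S R h hCh hh0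
    (fun a => Subfield.mem_top _) (fun _ _ x _ => Subfield.mem_top x)
    (fun a b => by
      rw [hmemR, hquot]
      exact FS_AF (hS b b.2).1)
    (fun a b f hf => by
      rw [hR] at hf
      have hf' : Ph ι f ∈ RI (AJ (hst b) (ex T₀)) := mem_res.1 hf
      obtain ⟨k, hk⟩ := glue_RI4 (u := (b : K) / a) (FS_AF (hS b b.2).1) (hst a) (hst b)
        (fun g => by rw [map_div₀, (hS a a.2).2.2, (hS b b.2).2.2])
        (AF_glue (hS a a.2).2.1 (hS b b.2).1 (hS b b.2).2.1) (ex T₀) _ hf'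
      refine ⟨k, ?_⟩
      rw [hR, mem_res, map_mul, map_pow, Ph_hm, hquot]
      exact hk)
    (fun V hV => by
      obtain ⟨Φ, hΦ, hΦV⟩ := hval V hV
      refine ⟨⟨Φ, hΦ⟩, fun x hx => ?_⟩
      rw [hmemR] at hx
      exact hΦV x hx)
    (fun a x _ => by
      obtain ⟨b, hb, b', hb', hb0, hx⟩ := AF_frac (O := O) hz (hS a a.2).2.1 hd1 hfr (ι x)
      have hsplit : ∏ g : G, ρ g b' = b' * ∏ g ∈ Finset.univ.erase 1, ρ g b' := by
        rw [← Finset.mul_prod_erase Finset.univ _ (Finset.mem_univ (1 : G)), map_one]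
        rfl
      have hmem : ∏ g ∈ Finset.univ.erase (1 : G), ρ g b' ∈ AF O z d a :=
        Subalgebra.prod_mem _ fun g _ => hst a g b' hb'
      have hne : ∏ g : G, ρ g b' ≠ 0 :=
        Finset.prod_ne_zero_iff.2 fun g _ h0 => hb0 ((map_eq_zero _).1 h0)
      have hinv : ∀ g, ρ g (∏ g : G, ρ g b') = ∏ g : G, ρ g b' := by
        intro g
        rw [map_prod]
        refine Fintype.prod_equiv (Equiv.mulLeft g) _ _ fun g' => ?_
        rw [Equiv.coe_mulLeft, map_mul, AlgEquiv.mul_apply]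
      obtain ⟨y', hy'⟩ := (hfix _).1 hinv
      have hy'' : ι y' = ∏ g : G, ρ g b' := hy'
      have hy0 : y' ≠ 0 := by
        rintro rfl
        rw [map_zero] at hy''
        exact hne hy''.symm
      refine ⟨x * y', y', ?_, ?_, hy0, ?_⟩
      · rw [hmemR, map_mul, hy'', hx, hsplit]
        have e : b / b' * (b' * ∏ g ∈ Finset.univ.erase (1 : G), ρ g b') =
            b * ∏ g ∈ Finset.univ.erase (1 : G), ρ g b' := by
          field_simp
        rw [e]
        exact Subalgebra.mul_mem _ hb hmem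
      · rw [hmemR, hy'', hsplit]
        exact Subalgebra.mul_mem _ hb' hmem
      · rw [mul_div_cancel_right₀ _ hy0])
    (fun h => absurd h id) (fun h => absurd h id)
  obtain ⟨I, _, zz, J, hmod⟩ := all_MODEL O F hinjF False ⊥ Submodule.fg_bot ⊤ (fun _ _ _ => Subfield.mem_top _)
    r T C H hAt
  have htop : (⊤ : Subfield F) = (algebraMap F F).fieldRange := by
    ext x
    constructor
    · exact fun _ => ⟨x, rfl⟩
    · exact fun _ => Subfield.mem_top _
  rw [htop] at hmod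
  obtain ⟨M', h1, h2, h3, h4, -⟩ := Pool.Agent.Y246.G.t_HASM O F F hinjF False ⊥ I zz J hmod
  exact ⟨M', h1, h2, h3, h4⟩

end Pool.Agent.N864.GS
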