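import Pool.Agent.N864.GS.Main4
import Pool.Agent.N864.GR.Pts3
import Pool.Agent.Y223.INV.Fin

/-!
# The conditions at the points, and the model
-/

set_option autoImplicit false
set_option linter.unusedSectionVars false
set_option linter.unusedVariables false

namespace Pool.Agent.N864.GS

open IsLocalRing Pool.Agent.Y223.G Pool.Agent.TH188.QS Pool.Agent.W418.LU2 Pool.Agent.TH188.ARC
  Pool.Agent.Y223.INV Pool.Agent.N864.GQ Pool.Agent.N864.GR Pool.Agent.H918R2.Quad
  AlgebraicGeometry CategoryTheory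

section

variable {O K G : Type} [CommRing O] [Field K] [Algebra O K] [Group G]

/-- The conditions on the inertia group. -/
def InertiaCondition4 (T : Set ℕ) (ρ : G →* (K ≃ₐ[O] K)) (R : Subring K) : Prop :=
  (∀ g, IsFixed (ρ g) R → g = 1) ∨
    ∃ τ : G, (∀ g, IsFixed (ρ g) R ↔ g ∈ Subgroup.zpowers τ) ∧
      ((IsUnit ((orderOf τ : ℕ) : R) ∧ ∀ l : ℕ, l.Prime → l ∣ orderOf τ → l ∈ T) ∨
        ((orderOf τ).Prime ∧ orderOf τ ∉ T ∧ Good (orderOf τ) (ρ τ) R))

variable {ρ : G →* (K ≃ₐ[O] K)} {W : ValuationSubring K} {Q : Subring K} {T : Set ℕ}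

/-- The conditions at the points. -/
theorem pt_of4 (hQW : Q ≤ W.toSubring) (hIC : IC W.toSubring Q) (hreg : IsRegularLocalRing Q)
    (h : InertiaCondition4 T ρ Q) : PT2 (fun l => l ∈ T) ρ W Q := by
  classical
  have hfx : ∀ g, Fx (ρ g) W Q ↔ IsFixed (ρ g) Q := fun g => fx_iff hQW hIC hreg (ρ g)
  rcases h with h | ⟨τ, hI, ⟨hu, hT⟩ | ⟨hp, hpT, hG⟩⟩
  · exact ⟨hreg, Or.inl fun g hg => h g ((hfx g).1 hg)⟩
  · exact ⟨hreg, Or.inr (Or.inr ⟨τ, fun g => (hfx g).trans (hI g), hu, hT⟩)⟩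
  obtain ⟨p, hτ⟩ : ∃ p, orderOf τ = p := ⟨_, rfl⟩
  rw [hτ] at hp hpT hG
  have hτp : τ ^ p = 1 := by rw [← hτ, pow_orderOf_eq_one]
  have hF : Fx (ρ τ) W Q := (hfx τ).2 ((hI τ).2 (Subgroup.mem_zpowers τ))
  have hloc : IsLocalRing Q := hreg.toIsLocalRing
  have h22 : p = 2 → ∀ x, ρ τ (ρ τ x) = x := by
    intro h2 x
    rw [h2] at hτp
    rw [← AlgEquiv.mul_apply, ← map_mul, ← pow_two, hτp, map_one]
    rfl
  have hpp : ∀ x, (ρ τ)^[p] x = x := by
    intro x
    have h1 : ∀ n : ℕ, (ρ τ)^[n] x = ρ (τ ^ n) x := by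
      intro n
      induction n with
      | zero => rw [pow_zero, map_one]; rfl
      | succ n ih => rw [Function.iterate_succ_apply', ih, pow_succ', map_mul]; rfl
    rw [h1, hτp, map_one]
    rfl
  refine ⟨hreg, Or.inr (Or.inl ⟨p, τ, hp, hpT, hτ, fun g hg => (hI g).1 ((hfx g).1 hg), ?_, hF,
    ?_⟩)⟩
  · rcases hG with ⟨hu, -⟩ | ⟨t, δ, ht0, hδ, hJ⟩
    · exact gd_of_tame hpp hQW hIC hreg hF hu
    · exact gd_of_regular hQW hIC hreg ⟨t, δ, ht0, hδ, hJ.imp id And.left⟩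
  · have hsc2 : p = 2 → ∃ u, ∀ x ∈ fixR (qact hF), qact hF x - u * x ∈ fixR (qact hF) ^ 2 :=
      fun h2 => ⟨-1, sc_two fun x => Subtype.ext (h22 h2 x)⟩
    have hfi : fixedIdeal (ρ τ) Q = fixR (qact hF) := by
      unfold fixedIdeal fixR
      congr 1
      ext y
      constructor
      · rintro ⟨x, hx⟩
        exact ⟨x, Subtype.ext hx⟩
      · rintro ⟨x, hx⟩
        exact ⟨x, congrArg Subtype.val hx⟩
    have hsc : ActsByScalar (ρ τ) Q →
        ∃ u, ∀ x ∈ fixR (qact hF), qact hF x - u * x ∈ fixR (qact hF) ^ 2 := by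
      rintro ⟨u, hu⟩
      rw [hfi] at hu
      exact ⟨u, fun x hx => hu x hx _ rfl⟩
    rcases hG with ⟨-, h2⟩ | ⟨t, δ, ht0, hδ, hJ | ⟨hJ, h2⟩⟩
    · exact h2.elim hsc2 hsc
    · exact sc_top (t := t) (δ := δ) (fun x => Subtype.ext (hδ x)) hJ
    · exact h2.elim hsc2 hsc

/-- The conditions at the primes of the charts. -/
theorem pt_chart4 {m : ℕ} {z : Fin (m + 1) → K} {j : Fin (m + 1)}
    (hreg : IsRegularRing (CC O z j))
    (hpt : ∀ (𝔮 : Ideal (CC O z j)) [𝔮.IsPrime],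
      InertiaCondition4 T ρ (LocalSubring.ofPrime (CC O z j) 𝔮).toSubring)
    (W : ValuationSubring K) (hcW : CC O z j ≤ W.toSubring) :
    PT2 (fun l => l ∈ T) ρ W (lo W.toSubring (CC O z j)) := by
  classical
  let φ : CC O z j →+* W := (CC O z j).subtype.codRestrict W fun x => hcW x.2
  let P : Ideal (CC O z j) := (maximalIdeal W).comap φ
  have hP : P.IsPrime := Ideal.comap_isPrime _ _
  have hPN : ∀ a : CC O z j, a ∈ P ↔ NU W.toSubring (a : K) := by
    intro a
    have h1 : a ∈ P ↔ φ a ∈ maximalIdeal W := Iff.rfl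
    rw [h1, mem_maximalIdeal, mem_nonunits_iff, NU, not_iff_not]
    constructor
    · intro h
      obtain ⟨y, hy⟩ := isUnit_iff_exists_inv.1 h
      have h2 : (a : K) * y = 1 := congrArg Subtype.val hy
      refine ⟨left_ne_zero_of_mul_eq_one h2, ?_⟩
      rw [← eq_inv_of_mul_eq_one_right h2]
      exact y.2
    · rintro ⟨h2, h3⟩
      exact isUnit_iff_exists_inv.2 ⟨⟨_, h3⟩, Subtype.ext (mul_inv_cancel₀ h2)⟩
  have hR := ofPrime_eq_lo hcW P hPN
  have hpt' := hpt P
  have hregR : IsRegularLocalRing (LocalSubring.ofPrime (CC O z j) P).toSubring :=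
    IsRegularLocalRing.of_ringEquiv (LocalSubring.ofPrimeEquiv (CC O z j) P).toRingEquiv
  rw [hR] at hpt' hregR
  exact pt_of4 (lo_le hcW) (ic_lo hcW) hregR hpt'

end

/-- Regular proper models of the quotients. -/
theorem grp_final {O K : Type} [CommRing O] [IsDomain O] [Module.Finite ℤ O] [Field K]
    [Algebra O K] (hO : Function.Injective (algebraMap O K)) {m : ℕ}
    (z : Fin (m + 1) → K) (hz : ∀ j, z j ≠ 0) (hreg : ∀ j, IsRegularRing (CC O z j))
    (hfrac : Subfield.closure (CC O z 0 : Set K) = ⊤)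
    (G : Subgroup (K ≃ₐ[O] K)) [Finite G]
    (hlin : ∀ σ ∈ G, ∀ j, σ (z j) ∈ Submodule.span O (Set.range z)) (T : Set ℕ)
    (hpt : ∀ j (𝔮 : Ideal (CC O z j)) [𝔮.IsPrime],
      InertiaCondition4 T G.subtype (LocalSubring.ofPrime (CC O z j) 𝔮).toSubring)
    (F : Subfield K) (hF : ∀ x, x ∈ F ↔ ∀ σ ∈ G, σ x = x) {Y : Type} [Field Y] (i : Y ≃+* F) :
    ∃ (X' : Scheme.{0}) (_ : IsIntegral X') (g : X' ⟶ Spec (CommRingCat.of ℤ)),
      IsProper g ∧
      (∀ x : X',
        (((Module.finrank (IsLocalRing.ResidueField (X'.presheaf.stalk x))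
            (IsLocalRing.CotangentSpace (X'.presheaf.stalk x)) : ℕ∞)) : WithBot ℕ∞)
          = ringKrullDim (X'.presheaf.stalk x)) ∧
      Nonempty (X'.functionField ≃+* Y) := by
  have : IsNoetherianRing O := isNoetherian_of_isNoetherianRing_of_finite ℤ O |> fun h =>
    isNoetherianRing_iff.2 (isNoetherian_of_tower ℤ h)
  let r : O →+* F := (algebraMap O K).codRestrict F fun o => (hF _).2 fun σ _ => σ.commutes o
  let _ : Algebra O F := r.toAlgebra
  have hst : IsScalarTower O F K := IsScalarTower.of_algebraMap_eq fun o => rfl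
  have hinj : Function.Injective (algebraMap O F) := by
    intro a b hab
    exact hO (congrArg (Subtype.val : F → K) hab)
  have hM : HasModule O F := by
    refine gq_module4 hO (fun l => l ∈ T) G.subtype ?_ G.subtype_injective z hz ?_
      (fun g j => hlin g g.2 j) (fun W j hW => pt_chart4 (hreg j) (hpt j) W hW)
    · intro x
      constructor
      · intro hx
        exact ⟨⟨x, (hF x).2 fun σ hσ => hx ⟨σ, hσ⟩⟩, rfl⟩
      · rintro ⟨f, rfl⟩ g
        exact (hF _).1 f.2 g g.2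
    · intro S hO' hS
      rw [← top_le_iff, ← hfrac, Subfield.closure_le]
      intro x hx
      have hx' : x ∈ Algebra.adjoin O (Set.range fun i => z i / z 0) := hx
      clear hx
      induction hx' using Algebra.adjoin_induction with
      | mem x hx =>
        obtain ⟨i, rfl⟩ := hx
        exact hS i 0
      | algebraMap r => exact hO' r
      | add x y _ _ hx hy => exact S.add_mem hx hy
      | mul x y _ _ hx hy => exact S.mul_mem hx hy
  obtain ⟨X', hX', g, hg, hreg', ⟨i'⟩⟩ := model_of_hasModule hinj hM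
  exact ⟨X', hX', g, hg, hreg', ⟨i'.trans i.symm⟩⟩

end Pool.Agent.N864.GS
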