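import Pool.Agent.N864.GR.Fix3

/-!
# The quotient of the Rees algebra of an ideal which is locally a product of powers of the ideals of
the fixed points
-/

set_option autoImplicit false
set_option linter.unusedSectionVars false
set_option linter.unusedVariables false

namespace Pool.Agent.N864.GS

open IsLocalRing Pool.Agent.TH188.QS Pool.Agent.TH188.ARC Pool.Agent.W418.LU2
  Pool.Agent.Y223.G Pool.Agent.Y223.INV Pool.Agent.N864.GQ Pool.Agent.N864.GR
open Pool.Agent.Y232.G6 (Ph Ph_hm mem_res)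

variable {O K G : Type} [CommRing O] [Field K] [Algebra O K] [Group G]
  {ρ : G →* (K ≃ₐ[O] K)} {A : Subalgebra O K}

section fin

variable [Fintype G] (hst : ∀ g, ∀ a ∈ A, ρ g a ∈ A) {W : ValuationSubring K} {𝔞 : Ideal A}

theorem BW_regG [IsNoetherianRing O] [hft : Algebra.FiniteType O A]
    (hfaith : ∀ g, (∀ a ∈ A, ρ g a = a) → g = 1)
    (hloc : ∀ W : ValuationSubring K, A.toSubring ≤ W.toSubring →
      ∃ T : ℕ → Prop, Lq W 𝔞 (AJ hst (ex T)) ∧ PT2 T ρ W (lo W.toSubring A.toSubring))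
    (w : A) (hw : w ∈ 𝔞) (hw0 : (w : K) ≠ 0) : IsRegularRing (BW 𝔞 w) := by
  refine BW_regular w fun W hBW => ?_
  have hAW : A.toSubring ≤ W.toSubring := fun a ha => hBW (BW_A w ha)
  obtain ⟨T, ⟨u, hu0, huW, h1, h2⟩, hT⟩ := hloc W hAW
  obtain ⟨h3, h4⟩ := blow_local hAW hu0 huW h1 h2 hw hw0 hBW
  rw [h4]
  exact BW_pt hst hfaith hAW hT (u * w) (h1 w hw) (mul_ne_zero hu0 hw0) h3

/-- The quotient is regular outside of the vertex. -/
theorem ch_resG [IsNoetherianRing O] [hft : Algebra.FiniteType O A] {K' : Type} [Field K']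
    [Algebra O K'] (ι : K' →ₐ[O] K) (hfix : ∀ x, (∀ g, ρ g x = x) ↔ ∃ y, ι y = x)
    (hfaith : ∀ g, (∀ a ∈ A, ρ g a = a) → g = 1) (hne : 𝔞 ≠ ⊥)
    (hact : ∀ x ∈ 𝔞, ∀ g, act hst g x ∈ 𝔞)
    (hloc : ∀ W : ValuationSubring K, A.toSubring ≤ W.toSubring →
      ∃ T : ℕ → Prop, Lq W 𝔞 (AJ hst (ex T)) ∧ PT2 T ρ W (lo W.toSubring A.toSubring)) :
    Ch (res ι (RI 𝔞)) := by
  classical
  have hN : IsNoetherianRing A := Algebra.FiniteType.isNoetherianRing O A
  obtain ⟨w₀, hw₀, hw₀0⟩ := Submodule.exists_mem_ne_zero_of_ne_bot hne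
  have hw₀K : (w₀ : K) ≠ 0 := fun h => hw₀0 (Subtype.ext h)
  have hCh : Ch (RI 𝔞) :=
    { ft := ft_RI
      gr := gr_RI
      ss := s_RI
      cf := fun d x hx => by
        obtain ⟨b, -, rfl⟩ := of_hm_RI hx
        exact b_RI b
      pos := ⟨1, (w₀ : K), one_pos, hw₀K, hm_one_RI hw₀⟩
      rg := fun e η he h0 hη => rg_RI (BW_regG hst hfaith hloc) e η he h0 hη }
  have hstR : ∀ g, ∀ f ∈ RI 𝔞, tl (ρ g) f ∈ RI 𝔞 := by
    intro g
    refine RI_induction ?_ ?_ ?_ ?_ ?_
    · intro b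
      rw [tlhm]
      exact b_RI (act hst g b)
    · rw [tlhm, map_one]
      exact s_RI
    · intro a ha
      rw [tlhm]
      exact hm_one_RI (hact a ha g)
    · intro f _ f' _ hf hf'
      rw [map_add]
      exact Subalgebra.add_mem _ hf hf'
    · intro f _ f' _ hf hf'
      rw [map_mul]
      exact Subalgebra.mul_mem _ hf hf'
  refine Pool.Agent.Y279.G.t_STEPG Pool.Agent.Y824.G4.t_DESCG O K K' ι G ρ hfix
    (RI 𝔞) hCh hstR ?_ ?_
  · intro g hg
    apply hfaith
    intro a ha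
    have h1 := hg _ (b_RI (𝔞 := 𝔞) ⟨a, ha⟩)
    rw [tlhm] at h1
    exact hm_inj h1
  · rintro Q hQ ⟨e, η, he, h0, heQ⟩
    obtain ⟨w, hw, hwQ⟩ := exists_deg_one Q hQ he h0 heQ
    obtain ⟨W, hBW, hW0, hW1⟩ := exists_W Q hQ hw hwQ
    have hAW : A.toSubring ≤ W.toSubring := fun a ha => hBW (BW_A w ha)
    have hw0 : (w : K) ≠ 0 := by
      intro h
      apply hwQ
      have e : (⟨hm 1 (w : K), hm_one_RI hw⟩ : RI 𝔞) = 0 := by
        apply Subtype.ext
        change hm 1 (w : K) = 0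
        rw [h, hm_zero]
      rw [e]
      exact Q.zero_mem
    have hin : ∀ g, (∀ f ∈ RI 𝔞, ∃ h : tl (ρ g) f - f ∈ RI 𝔞,
        (⟨tl (ρ g) f - f, h⟩ : RI 𝔞) ∈ Q) →
        Fx (ρ g) W (lo W.toSubring A.toSubring) := by
      intro g hg
      refine fx_of_le hst hAW ?_
      unfold fixI
      rw [Ideal.span_le]
      rintro _ ⟨a, rfl⟩
      obtain ⟨h1, h2⟩ := hg _ (b_RI a)
      have e1 : (⟨_, h1⟩ : RI 𝔞) = ⟨_, b_RI (act hst g a - a)⟩ := by
        apply Subtype.ext
        change tl (ρ g) (hm 0 (a : K)) - hm 0 (a : K) = hm 0 (ρ g a - a)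
        rw [tlhm, ← hm_sub]
      rw [e1] at h2
      exact (hW0 _).1 h2
    obtain ⟨T, ⟨μ, hμ0, hμW, hμ1, hμ2⟩, hlocW⟩ := hloc W hAW
    obtain ⟨hreg, h | ⟨p, τ, hp, hpT, hτ, hI, -, hF, hsc⟩ | ⟨σ, hI, hu, hT⟩⟩ := hlocW
    · exact Or.inl fun g hg => h g (hin g hg)
    · have hτ1 : τ ≠ 1 := by
        rintro rfl
        rw [orderOf_one] at hτ
        exact hp.one_lt.ne hτ
      have hτp : τ ^ p = 1 := by rw [← hτ, pow_orderOf_eq_one]
      refine Or.inr ⟨p, τ, hp, hτp, fun g hg => hI g (hin g hg), ?_⟩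
      obtain ⟨v, hv, hvq⟩ := PI_not_le hst (ex T) (s := cy τ) (ctr hAW) (ctr_prime hAW)
        fun g hg => by
          by_cases hg1 : g = 1
          · exact Or.inl hg1
          · exact Or.inr (mem_cy.2 ⟨hI g (fx_of_le hst hAW hg), hg1⟩)
      obtain ⟨hv0, hvW⟩ := unit_of_not_ctr hAW hvq
      have hAI := AJ_split hst (ex T) (cy τ) (cy_sub τ)
      rw [PI_const hst (ex T) (s := cy τ) (I := fixI hst τ) fun g hg =>
        fixI_eq hst hp hτp hτ1 (mem_cy.1 hg).1 (mem_cy.1 hg).2] at hAI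
      have hm1 : 1 ≤ ∑ g ∈ cy τ, ex T g := by
        calc 1 ≤ ex T τ := ex_pos T τ
          _ ≤ ∑ g ∈ cy τ, ex T g := Finset.single_le_sum (f := ex T) (fun _ _ => Nat.zero_le _)
            (mem_cy.2 ⟨Subgroup.mem_zpowers τ, hτ1⟩)
      have hpm : p ∣ ∑ g ∈ cy τ, ex T g := by
        refine Finset.dvd_sum fun g hg => ?_
        have h3 : orderOf g ∣ p := hτ ▸ orderOf_dvd_of_mem_zpowers (mem_cy.1 hg).1
        rcases (Nat.dvd_prime hp).1 h3 with h4 | h4
        · exact absurd (orderOf_eq_one_iff.1 h4) (mem_cy.1 hg).2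
        · exact ex_wild T hpT h4
      rw [hAI] at hμ1 hμ2
      exact fix_cond2 hst hμ0 hμW hμ1 hμ2 (fun x hx => hact x hx τ) hm1 hpm hv hv0 hvW hQ hw hwQ
        hBW hW0 hW1 hp hτp hτ1 (fixI_ne_bot hst hfaith hτ1) hF hsc
    · -- tame
      left
      intro g₀ hg₀
      by_contra hg₀1
      have hg₀σ : g₀ ∈ Subgroup.zpowers σ := (hI g₀).1 (hin g₀ hg₀)
      have ho1 : orderOf g₀ ≠ 1 := fun h => hg₀1 (orderOf_eq_one_iff.1 h)
      have hl : (orderOf g₀).minFac.Prime := Nat.minFac_prime ho1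
      have hldvd : (orderOf g₀).minFac ∣ orderOf g₀ := Nat.minFac_dvd _
      obtain ⟨l, hldef⟩ : ∃ l, l = (orderOf g₀).minFac := ⟨_, rfl⟩
      rw [← hldef] at hl hldvd
      obtain ⟨τ, hτdef⟩ : ∃ τ, τ = g₀ ^ (orderOf g₀ / l) := ⟨_, rfl⟩
      have hτo : orderOf τ = l := by
        rw [hτdef]
        exact orderOf_pow_orderOf_div (orderOf_pos g₀).ne' hldvd
      have hτσ : τ ∈ Subgroup.zpowers σ := by
        rw [hτdef]
        exact Subgroup.pow_mem _ hg₀σ _
      have hpow : ∀ n : ℕ, ∀ f ∈ RI 𝔞,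
          ∃ h : tl (ρ (g₀ ^ n)) f - f ∈ RI 𝔞,
            (⟨tl (ρ (g₀ ^ n)) f - f, h⟩ : RI 𝔞) ∈ Q := by
        intro n
        induction n with
        | zero =>
          intro f hf
          have e1 : tl (ρ (g₀ ^ 0)) f - f = 0 := by
            have h1 : tl (ρ (g₀ ^ 0)) f = f := by
              rw [pow_zero, map_one]
              have h2 : ∀ f : LP K, tl (1 : K ≃ₐ[O] K) f = f := by
                intro f
                rw [eq_sum_hm f, map_sum]
                refine Finset.sum_congr rfl fun i _ => ?_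
                rw [tlhm]
                rfl
              exact h2 f
            rw [h1, sub_self]
          refine ⟨by rw [e1]; exact Subalgebra.zero_mem _, ?_⟩
          have e2 : (⟨tl (ρ (g₀ ^ 0)) f - f, by rw [e1]; exact Subalgebra.zero_mem _⟩ :
              RI 𝔞) = 0 := Subtype.ext e1
          rw [e2]
          exact Q.zero_mem
        | succ n ih =>
          intro f hf
          obtain ⟨h1, h2⟩ := ih f hf
          obtain ⟨h3, h4⟩ := hg₀ _ (hstR (g₀ ^ n) f hf)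
          have e1 : tl (ρ (g₀ ^ (n + 1))) f - f =
              (tl (ρ g₀) (tl (ρ (g₀ ^ n)) f) - tl (ρ (g₀ ^ n)) f) + (tl (ρ (g₀ ^ n)) f - f) := by
            have h5 : tl (ρ (g₀ ^ (n + 1))) f = tl (ρ g₀) (tl (ρ (g₀ ^ n)) f) := by
              have h6 : ∀ f : LP K, tl (ρ (g₀ ^ (n + 1))) f = tl (ρ g₀) (tl (ρ (g₀ ^ n)) f) := by
                intro f
                rw [eq_sum_hm f, map_sum, map_sum, map_sum]
                refine Finset.sum_congr rfl fun i _ => ?_
                rw [tlhm, tlhm, tlhm, pow_succ', map_mul]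
                rfl
              exact h6 f
            rw [h5]
            ring
          refine ⟨by rw [e1]; exact Subalgebra.add_mem _ h3 h1, ?_⟩
          have e2 : (⟨tl (ρ (g₀ ^ (n + 1))) f - f, by rw [e1]; exact Subalgebra.add_mem _ h3 h1⟩ :
              RI 𝔞) = ⟨_, h3⟩ + ⟨_, h1⟩ := Subtype.ext e1
          rw [e2]
          exact Q.add_mem h4 h2
      have hτin : ∀ f ∈ RI 𝔞, ∃ h : tl (ρ τ) f - f ∈ RI 𝔞,
          (⟨tl (ρ τ) f - f, h⟩ : RI 𝔞) ∈ Q := by
        rw [hτdef]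
        exact hpow _
      have hin0 : ∀ a : A, W.valuation ((act hst τ a - a : A) : K) < 1 := by
        intro a
        obtain ⟨h1, h2⟩ := hτin _ (b_RI a)
        have e1 : (⟨_, h1⟩ : RI 𝔞) = ⟨_, b_RI (act hst τ a - a)⟩ := by
          apply Subtype.ext
          change tl (ρ τ) (hm 0 (a : K)) - hm 0 (a : K) = hm 0 (ρ τ a - a)
          rw [tlhm, ← hm_sub]
        rw [e1] at h2
        exact (hW0 _).1 h2
      have hFτ : Fx (ρ τ) W (lo W.toSubring A.toSubring) := hin τ hτin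
      obtain ⟨hτμ0, hτμW⟩ := unit_of_sub (hAW μ.2) hμ0 hμW (hAW (hst τ _ μ.2))
        (hFτ _ (le_lo _ _ μ.2)).2
      have hldvdσ : l ∣ orderOf σ := hldvd.trans (orderOf_dvd_of_mem_zpowers hg₀σ)
      have hlu : IsUnit ((l : ℕ) : lo W.toSubring A.toSubring) := by
        obtain ⟨k, hk⟩ := hldvdσ
        rw [hk, Nat.cast_mul] at hu
        exact isUnit_of_mul_isUnit_left hu
      obtain ⟨v', hv'⟩ := isUnit_iff_exists_inv.1 hlu
      have hv'' : (l : K) * v' = 1 := by
        have h1 := congrArg Subtype.val hv'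
        push_cast at h1
        exact h1
      have hl0 : (l : K) ≠ 0 := left_ne_zero_of_mul_eq_one hv''
      have hlW : ((l : K))⁻¹ ∈ W := by
        have h5 : (l : K)⁻¹ = v' := by
          rw [← mul_one (l : K)⁻¹, ← hv'', ← mul_assoc, inv_mul_cancel₀ hl0, one_mul]
        rw [h5]
        exact lo_le hAW v'.2
      obtain ⟨v, hv, hvq⟩ := PI_not_le hst (ex T) (s := cy σ) (ctr hAW) (ctr_prime hAW)
        fun g hg => by
          by_cases hg1 : g = 1
          · exact Or.inl hg1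
          · exact Or.inr (mem_cy.2 ⟨(hI g).1 (fx_of_le hst hAW hg), hg1⟩)
      obtain ⟨hv0, hvW⟩ := unit_of_not_ctr hAW hvq
      have hAI := AJ_split hst (ex T) (cy σ) (cy_sub σ)
      obtain ⟨hB3, -⟩ := blow_local hAW hμ0 hμW hμ1 hμ2 hw hw0 hBW
      have hcommσ : ∀ g ∈ Subgroup.zpowers σ, ∀ h ∈ Subgroup.zpowers σ, g * h = h * g := by
        rintro _ ⟨i, rfl⟩ _ ⟨j, rfl⟩
        change σ ^ i * σ ^ j = σ ^ j * σ ^ i
        rw [← zpow_add, ← zpow_add, add_comm]
      refine tame_free hst hAW (s := cy σ) (e := ex T) hl hτo hlW hl0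
        (fun g hg => fixI_ne_bot hst hfaith (mem_cy.1 hg).2)
        (fun g hg => hcommσ τ hτσ g (mem_cy.1 hg).1) ?_ (fun g _ => ex_pos T g) ?_ ?_ hv hv0 hvW
        (fun h => (mem_cy.1 h).2 rfl) (w := μ * w) ?_ (mul_ne_zero hμ0 hw0) ?_ ?_ ?_
      · intro g hg hg1
        refine mem_cy.2 ⟨?_, hg1⟩
        have h1 : Subgroup.zpowers τ ≤ Subgroup.zpowers σ := by
          rw [Subgroup.zpowers_le]
          exact hτσ
        exact h1 hg
      · intro g hg hgτ
        refine ex_dvd T hl (hldvdσ.trans (orderOf_dvd_natCard σ)) fun hgo => hgτ ?_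
        exact cyc_unique hl (mem_cy.1 hg).1 hτσ hgo hτo
      · intro r hr
        have h1 := ex_sum T hl (hT l hl hldvdσ) hτo
        have h2 : r = Finset.univ.filter (fun g : G => g ∈ Subgroup.zpowers τ ∧ g ≠ 1) := by
          ext g
          rw [hr, Finset.mem_filter]
          exact ⟨fun h => ⟨Finset.mem_univ _, h⟩, fun h => h.2⟩
        rw [h2]
        exact h1
      · rw [← hAI]
        exact hμ1 w hw
      · rw [← hAI]
        exact hB3
      · exact hin0
      · intro b hb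
        rw [← hAI] at hb
        have hub : μ * b ∈ 𝔞 := hμ2 b hb
        have hub' := hact _ hub τ
        have hmem : act hst τ (μ * b) - μ * b ∈ 𝔞 := Ideal.sub_mem _ hub' hub
        obtain ⟨h1, h2⟩ := hτin _ (hm_one_RI hub)
        have e1 : (⟨_, h1⟩ : RI 𝔞) = ⟨_, hm_one_RI hmem⟩ := by
          apply Subtype.ext
          change tl (ρ τ) (hm 1 ((μ : K) * (b : K))) - hm 1 ((μ : K) * (b : K)) =
            hm 1 (ρ τ ((μ : K) * (b : K)) - (μ : K) * (b : K))
          rw [tlhm, ← hm_sub]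
        rw [e1] at h2
        have h3 := hW1 _ hmem h2
        have h4 : (b : K) / ((μ * w : A) : K) ∈ W := hB3 (BW_div _ hb)
        have h5 : W.valuation (ρ τ (μ : K) - (μ : K)) < 1 := hin0 μ
        have e2 : ((act hst τ b - b : A) : K) / ((μ * w : A) : K) =
            ((act hst τ (μ * b) - μ * b : A) : K) / w * ((ρ τ (μ : K))⁻¹ * (μ : K)⁻¹) -
              (ρ τ (μ : K) - (μ : K)) * ((b : K) / ((μ * w : A) : K) * (ρ τ (μ : K))⁻¹) := by
          change (ρ τ (b : K) - b) / ((μ : K) * w) =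
            (ρ τ ((μ : K) * b) - (μ : K) * b) / w * ((ρ τ (μ : K))⁻¹ * (μ : K)⁻¹) -
              (ρ τ (μ : K) - (μ : K)) * ((b : K) / ((μ : K) * w) * (ρ τ (μ : K))⁻¹)
          rw [map_mul]
          field_simp
          ring
        rw [e2]
        refine (Valuation.map_sub _ _ _).trans_lt (max_lt ?_ ?_)
        · rw [map_mul]
          exact mul_lt_one_of_lt_of_le h3
            ((W.valuation_le_one_iff _).2 (W.mul_mem _ _ hτμW hμW))
        · rw [map_mul]
          exact mul_lt_one_of_lt_of_le h5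
            ((W.valuation_le_one_iff _).2 (W.mul_mem _ _ h4 hτμW))

end fin

end Pool.Agent.N864.GS
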